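import Pool.Agent.R187.OB.Defs

/-!
# The annulus `1 ≤ |z| ≤ 2` as a billiard table
-/

set_option autoImplicit false

open MeasureTheory Filter Topology Complex

namespace Pool.Agent.R187.OB

/-- the annulus -/
def Q : Set ℂ := {z | 1 ≤ ‖z‖ ∧ ‖z‖ ≤ 2}

/-- outer and inner boundary curve -/
noncomputable def γ : Fin 2 → ℝ → ℂ :=
  ![fun r => 2 * cexp ((r / 2 : ℝ) * I), fun r => cexp ((-r : ℝ) * I)]

/-- lengths -/
noncomputable def L : Fin 2 → ℝ := ![4 * Real.pi, 2 * Real.pi]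

lemma γ0 (r : ℝ) : γ 0 r = 2 * cexp ((r / 2 : ℝ) * I) := rfl
lemma γ1 (r : ℝ) : γ 1 r = cexp ((-r : ℝ) * I) := rfl
lemma L0 : L 0 = 4 * Real.pi := rfl
lemma L1 : L 1 = 2 * Real.pi := rfl

lemma norm_e (x : ℝ) : ‖cexp (x * I)‖ = 1 := Complex.norm_exp_ofReal_mul_I x

lemma hasDeriv_e (a b r : ℝ) :
    HasDerivAt (fun r : ℝ => cexp ((a * r + b : ℝ) * I)) (a * I * cexp ((a * r + b : ℝ) * I)) r := by
  have h1 : HasDerivAt (fun r : ℝ => ((a * r + b : ℝ) : ℂ) * I) (a * I) r := by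
    have h2 : HasDerivAt (fun r : ℝ => a * r + b) a r := by
      simpa using ((hasDerivAt_id r).const_mul a).add_const b
    have h3 := h2.ofReal_comp
    simpa using h3.mul_const I
  have h4 := h1.cexp
  convert h4 using 1
  ring

lemma dγ0 (r : ℝ) : HasDerivAt (γ 0) (I * cexp ((r / 2 : ℝ) * I)) r := by
  have h := (hasDeriv_e (1/2) 0 r).const_mul (2:ℂ)
  have e : ∀ r : ℝ, (1/2 * r + 0 : ℝ) = r / 2 := fun r => by ring
  simp only [e] at h
  refine HasDerivAt.congr_deriv (f := γ 0) h ?_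
  push_cast
  ring

lemma dγ1 (r : ℝ) : HasDerivAt (γ 1) (-I * cexp ((-r : ℝ) * I)) r := by
  have h := (hasDeriv_e (-1) 0 r)
  have e : ∀ r : ℝ, (-1 * r + 0 : ℝ) = -r := fun r => by ring
  simp only [e] at h
  refine HasDerivAt.congr_deriv (f := γ 1) h ?_
  push_cast
  ring

lemma derivγ0 (r : ℝ) : deriv (γ 0) r = I * cexp ((r / 2 : ℝ) * I) := (dγ0 r).deriv
lemma derivγ1 (r : ℝ) : deriv (γ 1) r = -I * cexp ((-r : ℝ) * I) := (dγ1 r).deriv

lemma state0 (p : ℝ × ℝ) : state γ 0 p =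
    (2 * cexp ((p.1 / 2 : ℝ) * I), -(cexp ((p.1 / 2 : ℝ) * I)) * cexp (p.2 * I)) := by
  unfold state
  rw [γ0, derivγ0]
  have : I * (I * cexp ((p.1 / 2 : ℝ) * I)) = -(cexp ((p.1 / 2 : ℝ) * I)) := by
    rw [← mul_assoc, I_mul_I]; ring
  rw [this]

lemma state1 (p : ℝ × ℝ) : state γ 1 p =
    (cexp ((-p.1 : ℝ) * I), (cexp ((-p.1 : ℝ) * I)) * cexp (p.2 * I)) := by
  unfold state
  rw [γ1, derivγ1]
  have : I * (-I * cexp ((-p.1 : ℝ) * I)) = (cexp ((-p.1 : ℝ) * I)) := by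
    rw [← mul_assoc, mul_neg, I_mul_I]; ring
  rw [this]

lemma norm_γ0 (r : ℝ) : ‖γ 0 r‖ = 2 := by rw [γ0, norm_mul, norm_e]; simp
lemma norm_γ1 (r : ℝ) : ‖γ 1 r‖ = 1 := by rw [γ1, norm_e]

lemma isCompact_Q : IsCompact Q := by
  have h1 : IsClosed Q := (isClosed_le continuous_const continuous_norm).inter
    (isClosed_le continuous_norm continuous_const)
  have h2 : Q ⊆ Metric.closedBall 0 2 := fun z hz => by simpa using hz.2
  exact (isCompact_closedBall (0:ℂ) 2).of_isClosed_subset h1 h2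

lemma closure_open : closure {z : ℂ | 1 < ‖z‖ ∧ ‖z‖ < 2} = Q := by
  apply subset_antisymm
  · exact closure_minimal (fun z hz => ⟨hz.1.le, hz.2.le⟩) isCompact_Q.isClosed
  · intro z hz
    -- z = lim of z * s, with s -> 1
    set ρ : ℝ := ‖z‖ with hρ
    have hρ0 : 0 < ρ := lt_of_lt_of_le one_pos hz.1
    -- points z * (1 + t (3/2 - ρ)/ρ), modulus ρ + t (3/2 - ρ)
    have hc : Continuous fun t : ℝ => z * ((1 + t * (3 / 2 - ρ) / ρ : ℝ) : ℂ) := by fun_prop
    have hlim : Tendsto (fun t : ℝ => z * ((1 + t * (3 / 2 - ρ) / ρ : ℝ) : ℂ)) (𝓝[>] 0) (𝓝 z) := by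
      have := (hc.tendsto 0).mono_left (nhdsWithin_le_nhds (s := Set.Ioi (0:ℝ)))
      simpa using this
    refine mem_closure_of_tendsto hlim ?_
    have h1 : ∀ᶠ t : ℝ in 𝓝[>] 0, t < 1 :=
      nhdsWithin_le_nhds (gt_mem_nhds one_pos)
    filter_upwards [self_mem_nhdsWithin, h1] with t ht0 ht1
    have ht0' : 0 < t := ht0
    have hn : ‖z * ((1 + t * (3 / 2 - ρ) / ρ : ℝ) : ℂ)‖ = (1 - t) * ρ + t * (3 / 2) := by
      rw [norm_mul, Complex.norm_real, ← hρ, Real.norm_eq_abs, abs_of_nonneg]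
      · field_simp
        ring
      · have : 1 + t * (3 / 2 - ρ) / ρ = ((1 - t) * ρ + t * (3 / 2)) / ρ := by
          field_simp
          ring
        rw [this]
        have : 0 ≤ (1 - t) * ρ := mul_nonneg (by linarith) hρ0.le
        positivity
    have h2 : 1 ≤ ρ := hz.1
    have h3 : ρ ≤ 2 := hz.2
    constructor
    · rw [hn]; nlinarith
    · rw [hn]; nlinarith

lemma interior_Q : interior Q = {z : ℂ | 1 < ‖z‖ ∧ ‖z‖ < 2} := by
  apply subset_antisymm
  · intro z hz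
    have hzQ : z ∈ Q := interior_subset hz
    have hρ0 : 0 < ‖z‖ := lt_of_lt_of_le one_pos hzQ.1
    have hc : Continuous fun t : ℝ => z * ((1 + t : ℝ) : ℂ) := by fun_prop
    have hlim : Tendsto (fun t : ℝ => z * ((1 + t : ℝ) : ℂ)) (𝓝 0) (𝓝 z) := by
      simpa using hc.tendsto 0
    have hev := hlim.eventually (mem_interior_iff_mem_nhds.1 hz)
    obtain ⟨δ, hδ, hball⟩ := Metric.eventually_nhds_iff.1 hev
    have key : ∀ t : ℝ, |t| < δ → |t| < 1 → 1 ≤ ‖z‖ * (1 + t) ∧ ‖z‖ * (1 + t) ≤ 2 := by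
      intro t ht ht1
      have h1 := hball (y := t) (by simpa using ht)
      have h2 : ‖z * ((1 + t : ℝ) : ℂ)‖ = ‖z‖ * (1 + t) := by
        rw [norm_mul, Complex.norm_real, Real.norm_eq_abs, abs_of_nonneg]
        have := (abs_lt.1 ht1).1
        linarith
      have h3 : z * ((1 + t : ℝ) : ℂ) ∈ Q := h1
      have h4 : 1 ≤ ‖z * ((1 + t : ℝ) : ℂ)‖ ∧ ‖z * ((1 + t : ℝ) : ℂ)‖ ≤ 2 := h3
      rw [h2] at h4
      exact h4
    set s := min (δ / 2) (1 / 2) with hs
    have hs0 : 0 < s := by positivity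
    have hs1 : s < δ := lt_of_le_of_lt (min_le_left _ _) (by linarith)
    have hs2 : s < 1 := lt_of_le_of_lt (min_le_right _ _) (by norm_num)
    have k1 := key (-s) (by rwa [abs_neg, abs_of_pos hs0]) (by rwa [abs_neg, abs_of_pos hs0])
    have k2 := key s (by rwa [abs_of_pos hs0]) (by rwa [abs_of_pos hs0])
    constructor
    · nlinarith [k1.1]
    · nlinarith [k2.2]
  · refine interior_maximal (fun z hz => ⟨hz.1.le, hz.2.le⟩) ?_
    exact (isOpen_lt continuous_const continuous_norm).inter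
      (isOpen_lt continuous_norm continuous_const)

lemma mem_interior_Q (z : ℂ) : z ∈ interior Q ↔ 1 < ‖z‖ ∧ ‖z‖ < 2 := by
  rw [interior_Q]; rfl

lemma frontier_Q : frontier Q = ⋃ i, Set.range (γ i) := by
  have h : frontier Q = {z : ℂ | ‖z‖ = 1 ∨ ‖z‖ = 2} := by
    rw [isCompact_Q.isClosed.frontier_eq, interior_Q]
    ext z
    simp only [Q, Set.mem_sdiff, Set.mem_ofPred_eq]
    constructor
    · rintro ⟨⟨h1, h2⟩, h3⟩
      by_contra h4
      push Not at h4
      exact h3 ⟨lt_of_le_of_ne h1 (Ne.symm h4.1), lt_of_le_of_ne h2 h4.2⟩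
    · rintro (h | h) <;> rw [h] <;> norm_num
  rw [h]
  ext z
  simp only [Set.mem_ofPred_eq, Set.mem_iUnion, Set.mem_range]
  constructor
  · intro hz
    rcases hz with hz | hz
    · refine ⟨1, -(Complex.arg z), ?_⟩
      rw [γ1]
      have := Complex.norm_mul_exp_arg_mul_I z
      rw [hz] at this
      simpa using this
    · refine ⟨0, 2 * Complex.arg z, ?_⟩
      rw [γ0]
      have := Complex.norm_mul_exp_arg_mul_I z
      rw [hz] at this
      have e : (2 * Complex.arg z / 2 : ℝ) = Complex.arg z := by ring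
      rw [e]
      simpa using this
  · rintro ⟨i, y, rfl⟩
    fin_cases i
    · right; exact norm_γ0 y
    · left; exact norm_γ1 y

lemma exp_eq_iff (x y : ℝ) : cexp (x * I) = cexp (y * I) ↔ ∃ k : ℤ, y = x + k * (2 * Real.pi) := by
  rw [Complex.exp_eq_exp_iff_exists_int]
  constructor
  · rintro ⟨n, hn⟩
    refine ⟨-n, ?_⟩
    have h := congrArg Complex.im hn
    simp at h
    push_cast
    linarith
  · rintro ⟨k, hk⟩
    refine ⟨-k, ?_⟩
    rw [hk]
    push_cast
    ring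

lemma isTable : IsTable Q γ L where
  isCompact := isCompact_Q
  closure_interior := by rw [interior_Q, closure_open]
  isConnected := by
    rw [interior_Q]
    have h : {z : ℂ | 1 < ‖z‖ ∧ ‖z‖ < 2} =
        (fun p : ℝ × ℝ => (p.1 : ℂ) * cexp (p.2 * I)) '' (Set.Ioo 1 2 ×ˢ Set.univ) := by
      ext z
      constructor
      · rintro ⟨h1, h2⟩
        refine ⟨(‖z‖, Complex.arg z), ⟨⟨h1, h2⟩, trivial⟩, ?_⟩
        exact Complex.norm_mul_exp_arg_mul_I z
      · rintro ⟨p, ⟨⟨h1, h2⟩, -⟩, rfl⟩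
        have : ‖(p.1 : ℂ) * cexp (p.2 * I)‖ = p.1 := by
          rw [norm_mul, norm_e, mul_one, Complex.norm_real, Real.norm_eq_abs,
            abs_of_pos (by linarith)]
        show 1 < ‖(p.1 : ℂ) * cexp (p.2 * I)‖ ∧ ‖(p.1 : ℂ) * cexp (p.2 * I)‖ < 2
        rw [this]
        exact ⟨h1, h2⟩
    rw [h]
    have hc : Continuous (fun p : ℝ × ℝ => (p.1 : ℂ) * cexp (p.2 * I)) := by fun_prop
    exact ((isConnected_Ioo (by norm_num)).prod isConnected_univ).image _ hc.continuousOn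
  pos := by
    intro i
    fin_cases i
    · show 0 < 4 * Real.pi
      positivity
    · show 0 < 2 * Real.pi
      positivity
  smooth := by
    intro i
    fin_cases i
    · show ContDiff ℝ 3 fun r : ℝ => 2 * cexp ((r / 2 : ℝ) * I)
      have h1 : ContDiff ℝ 3 fun r : ℝ => ((r / 2 : ℝ) : ℂ) * I :=
        (Complex.ofRealCLM.contDiff.comp (contDiff_id.div_const 2)).mul contDiff_const
      exact contDiff_const.mul h1.cexp
    · show ContDiff ℝ 3 fun r : ℝ => cexp ((-r : ℝ) * I)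
      have h1 : ContDiff ℝ 3 fun r : ℝ => ((-r : ℝ) : ℂ) * I :=
        (Complex.ofRealCLM.contDiff.comp contDiff_id.neg).mul contDiff_const
      exact h1.cexp
  unit_speed := by
    intro i s
    fin_cases i
    · show ‖deriv (γ 0) s‖ = 1
      rw [derivγ0, norm_mul, norm_e]; simp
    · show ‖deriv (γ 1) s‖ = 1
      rw [derivγ1, norm_mul, norm_e]; simp
  simple_closed := by
    intro i s t
    fin_cases i
    · show γ 0 s = γ 0 t ↔ ∃ k : ℤ, t = s + k * L 0
      rw [γ0, γ0, L0, mul_right_inj' (by norm_num : (2:ℂ) ≠ 0), exp_eq_iff]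
      constructor
      · rintro ⟨k, hk⟩; exact ⟨k, by linarith⟩
      · rintro ⟨k, hk⟩; exact ⟨k, by linarith⟩
    · show γ 1 s = γ 1 t ↔ ∃ k : ℤ, t = s + k * L 1
      rw [γ1, γ1, L1, exp_eq_iff]
      constructor
      · rintro ⟨k, hk⟩; exact ⟨-k, by push_cast; linarith⟩
      · rintro ⟨k, hk⟩; exact ⟨-k, by push_cast; linarith⟩
  disjoint := by
    intro i j s t h
    have h' := congrArg norm h
    fin_cases i <;> fin_cases j
    · rfl
    · exfalso
      have h2 : ‖γ 0 s‖ = ‖γ 1 t‖ := h'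
      rw [norm_γ0, norm_γ1] at h2
      norm_num at h2
    · exfalso
      have h2 : ‖γ 1 s‖ = ‖γ 0 t‖ := h'
      rw [norm_γ0, norm_γ1] at h2
      norm_num at h2
    · rfl
  frontier_eq := frontier_Q
  left_side := by
    intro i s
    have h1 : ∀ᶠ t : ℝ in 𝓝[>] 0, t < 1 := nhdsWithin_le_nhds (gt_mem_nhds one_pos)
    filter_upwards [self_mem_nhdsWithin, h1] with t ht0 ht1
    have ht0' : 0 < t := ht0
    rw [mem_interior_Q]
    fin_cases i
    · show 1 < ‖γ 0 s + t * (I * deriv (γ 0) s)‖ ∧ ‖γ 0 s + t * (I * deriv (γ 0) s)‖ < 2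
      have e : γ 0 s + t * (I * deriv (γ 0) s) = ((2 - t : ℝ) : ℂ) * cexp ((s / 2 : ℝ) * I) := by
        rw [γ0, derivγ0, ← mul_assoc I I, I_mul_I]
        push_cast
        ring
      rw [e, norm_mul, norm_e, mul_one, Complex.norm_real, Real.norm_eq_abs,
        abs_of_pos (by linarith)]
      constructor <;> linarith
    · show 1 < ‖γ 1 s + t * (I * deriv (γ 1) s)‖ ∧ ‖γ 1 s + t * (I * deriv (γ 1) s)‖ < 2
      have e : γ 1 s + t * (I * deriv (γ 1) s) = ((1 + t : ℝ) : ℂ) * cexp ((-s : ℝ) * I) := by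
        rw [γ1, derivγ1, neg_mul, mul_neg, ← mul_assoc I I, I_mul_I]
        push_cast
        ring
      rw [e, norm_mul, norm_e, mul_one, Complex.norm_real, Real.norm_eq_abs,
        abs_of_pos (by linarith)]
      constructor <;> linarith

end Pool.Agent.R187.OB
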