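import Mathlib

/-!
# Billiard tables with smooth boundary, invariant measures and the integrability condition of Oseledets

The table `Q` is a compact plane set, its boundary is parametrised by finitely many disjoint closed
curves `γ i` (arc length, table on the left). A state is a pair `(q, v)` (base point on the boundary,
unit velocity) in `ℂ × ℂ`; its coordinates are `(r, φ)`, the arc length parameter of `q` and the angle
from the inward normal to `v`.
-/

set_option autoImplicit false

open MeasureTheory Filter Topology Complex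

namespace Pool.Agent.R187.OB

/-- `Q` is a compact billiard table with connected interior whose boundary consists of finitely many
pairwise disjoint simple closed curves of class `C^3` (so there are no corners and no cusps): the
curve `γ i` is parametrised by arc length, has length `L i`, and the interior of `Q` lies on its
left (the inward unit normal at `γ i s` is `I * γ i'(s)`). -/
structure IsTable {m : ℕ} (Q : Set ℂ) (γ : Fin m → ℝ → ℂ) (L : Fin m → ℝ) : Prop where
  isCompact : IsCompact Q
  closure_interior : closure (interior Q) = Q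
  isConnected : IsConnected (interior Q)
  pos : ∀ i, 0 < L i
  smooth : ∀ i, ContDiff ℝ 3 (γ i)
  unit_speed : ∀ i s, ‖deriv (γ i) s‖ = 1
  simple_closed : ∀ i s t, γ i s = γ i t ↔ ∃ k : ℤ, t = s + k * L i
  disjoint : ∀ i j s t, γ i s = γ j t → i = j
  frontier_eq : frontier Q = ⋃ i, Set.range (γ i)
  left_side : ∀ i s, ∀ᶠ t : ℝ in 𝓝[>] 0, γ i s + t * (I * deriv (γ i) s) ∈ interior Q

/-- The state with coordinates `p = (r, φ)` on the boundary curve `γ i`: the base point is
`γ i r` and the velocity makes the angle `φ` with the inward normal `I * γ i'(r)`. -/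
noncomputable def state {m : ℕ} (γ : Fin m → ℝ → ℂ) (i : Fin m) (p : ℝ × ℝ) : ℂ × ℂ :=
  (γ i p.1, I * deriv (γ i) p.1 * cexp (p.2 * I))

/-- `y` is the next collision after the state `x`, both collisions being non-tangential: the point
moves from `x.1` with velocity `x.2` through the interior of the table until it reaches the boundary
at `y.1`; there the velocity is reflected in the tangent line (the reflection in the line spanned by
the unit vector `u` is `v ↦ u ^ 2 * conj v`). -/
def Next {m : ℕ} (Q : Set ℂ) (γ : Fin m → ℝ → ℂ) (x y : ℂ × ℂ) : Prop :=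
  ∃ (i j : Fin m) (p p' : ℝ × ℝ) (τ : ℝ), x = state γ i p ∧ y = state γ j p' ∧
    |p.2| < Real.pi / 2 ∧ |p'.2| < Real.pi / 2 ∧ 0 < τ ∧ y.1 = x.1 + τ * x.2 ∧
    (∀ t : ℝ, 0 < t → t < τ → x.1 + t * x.2 ∈ interior Q) ∧
    y.2 = (deriv (γ j) p'.1) ^ 2 * (starRingEnd ℂ) x.2

/-- The billiard map (on the states whose next collision exists and is non-tangential, it is the
map that sends a state to the next collision; its values at the other states are irrelevant). -/
noncomputable def billiardMap {m : ℕ} (Q : Set ℂ) (γ : Fin m → ℝ → ℂ) (x : ℂ × ℂ) : ℂ × ℂ :=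
  Classical.epsilon (Next Q γ x)

/-- The whole orbit of `x`, forwards and backwards, is defined and avoids the singular set: all its
collisions are non-tangential (there are no corners). -/
def RegularOrbit {m : ℕ} (Q : Set ℂ) (γ : Fin m → ℝ → ℂ) (x : ℂ × ℂ) : Prop :=
  ∃ z : ℤ → ℂ × ℂ, z 0 = x ∧ ∀ n, Next Q γ (z n) (z (n + 1))

/-- `μ` is an invariant Borel probability measure of the billiard map which gives full mass to the
states whose entire orbit avoids the singular set. -/
structure IsInvariantProbability {m : ℕ} (Q : Set ℂ) (γ : Fin m → ℝ → ℂ) (μ : Measure (ℂ × ℂ)) :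
    Prop where
  prob : IsProbabilityMeasure μ
  aemeasurable : AEMeasurable (billiardMap Q γ) μ
  map_eq : μ.map (billiardMap Q γ) = μ
  regular : ∀ᵐ x ∂μ, RegularOrbit Q γ x

/-- `μ` gives zero mass to the set of periodic points of the billiard map. -/
def IsNonPeriodic {m : ℕ} (Q : Set ℂ) (γ : Fin m → ℝ → ℂ) (μ : Measure (ℂ × ℂ)) : Prop :=
  μ {x | ∃ n : ℕ, 0 < n ∧ (billiardMap Q γ)^[n] x = x} = 0

/-- `D` is the derivative of the billiard map at the state `x` in the coordinates `(r, φ)`: near the
coordinates `p` of `x` the billiard map is given by a map `F` (in the coordinates), and `D` is the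
derivative of `F` at `p`. -/
def IsDeriv {m : ℕ} (Q : Set ℂ) (γ : Fin m → ℝ → ℂ) (x : ℂ × ℂ) (D : ℝ × ℝ →L[ℝ] ℝ × ℝ) : Prop :=
  ∃ (i j : Fin m) (p : ℝ × ℝ) (F : ℝ × ℝ → ℝ × ℝ), x = state γ i p ∧
    (∀ᶠ p' in 𝓝 p, Next Q γ (state γ i p') (state γ j (F p'))) ∧ HasFDerivAt F D p

/-- `D` is the derivative of the inverse of the billiard map at the state `x` in the coordinates
`(r, φ)`. -/
def IsDerivInv {m : ℕ} (Q : Set ℂ) (γ : Fin m → ℝ → ℂ) (x : ℂ × ℂ) (D : ℝ × ℝ →L[ℝ] ℝ × ℝ) :
    Prop :=
  ∃ (i j : Fin m) (p : ℝ × ℝ) (F : ℝ × ℝ → ℝ × ℝ), x = state γ i p ∧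
    (∀ᶠ p' in 𝓝 p, Next Q γ (state γ j (F p')) (state γ i p')) ∧ HasFDerivAt F D p

/-- The function `x ↦ log⁺ ‖D_x‖` is `μ`-integrable, where `R x D` says that `D` is the derivative
`D_x` at the state `x` (`R` is `IsDeriv Q γ` or `IsDerivInv Q γ`): it is bounded by an integrable
function, `μ`-almost everywhere. -/
def LogIntegrable (R : ℂ × ℂ → (ℝ × ℝ →L[ℝ] ℝ × ℝ) → Prop) (μ : Measure (ℂ × ℂ)) : Prop :=
  ∃ g : ℂ × ℂ → ℝ, Integrable g μ ∧ ∀ᵐ x ∂μ, ∀ D, R x D → Real.posLog ‖D‖ ≤ g x

end Pool.Agent.R187.OB
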