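import Pool.Agent.R187.OB.Annulus

/-!
# Collisions in the annulus
-/

set_option autoImplicit false

open MeasureTheory Filter Topology Complex

namespace Pool.Agent.R187.OB

/-- the point of the unit circle with angle `x` -/
noncomputable def e (x : ℝ) : ℂ := cexp (x * I)

lemma e_def (x : ℝ) : cexp (x * I) = e x := rfl

lemma e_add (x y : ℝ) : e (x + y) = e x * e y := by
  unfold e; rw [← Complex.exp_add]; push_cast; ring_nf

lemma e_neg_mul (x : ℝ) : e (-x) * e x = 1 := by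
  rw [← e_add]; simp [e]

lemma e_zero : e 0 = 1 := by simp [e]

lemma e_sub (x y : ℝ) : e (x - y) = e x * e (-y) := by
  rw [← e_add]; ring_nf

lemma conj_e (x : ℝ) : (starRingEnd ℂ) (e x) = e (-x) := by
  unfold e
  rw [← Complex.exp_conj]
  simp

lemma norm_e' (x : ℝ) : ‖e x‖ = 1 := norm_e x

lemma cos_e (x : ℝ) : Complex.cos x = (e x + e (-x)) / 2 := by
  rw [Complex.cos]
  unfold e
  push_cast
  rfl

lemma sin_e (x : ℝ) : Complex.sin x * I * 2 = e x - e (-x) := by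
  rw [Complex.sin]
  unfold e
  push_cast
  have : I * I = -1 := I_mul_I
  linear_combination (-(cexp (x * I)) + cexp (-x * I)) * this

lemma st0 (p : ℝ × ℝ) : state γ 0 p = (2 * e (p.1 / 2), -(e (p.1 / 2)) * e p.2) := state0 p
lemma st1 (p : ℝ × ℝ) : state γ 1 p = (e (-p.1), e (-p.1) * e p.2) := state1 p
lemma dg0 (r : ℝ) : deriv (γ 0) r = I * e (r / 2) := derivγ0 r
lemma dg1 (r : ℝ) : deriv (γ 1) r = -I * e (-r) := derivγ1 r

lemma norm_sq_aux (u w : ℝ) : ‖(u : ℂ) + w * I‖ ^ 2 = u ^ 2 + w ^ 2 := by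
  rw [Complex.sq_norm, Complex.normSq_add_mul_I]

lemma one_lt_norm {z : ℂ} (h : 1 < ‖z‖ ^ 2) : 1 < ‖z‖ := by
  by_contra h2
  push Not at h2
  have := norm_nonneg z
  nlinarith

lemma norm_lt_two {z : ℂ} (h : ‖z‖ ^ 2 < 4) : ‖z‖ < 2 := by
  by_contra h2
  push Not at h2
  nlinarith

/-- from the outer circle to the inner one -/
lemma outer_inner (r φ s : ℝ) (h : Real.sin s = 2 * Real.sin φ) (hs : |s| < Real.pi / 2)
    (hφ : |φ| < Real.pi / 2) :
    Next Q γ (state γ 0 (r, φ)) (state γ 1 (-(r / 2 - s + φ), -s)) := by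
  have hcs : 0 < Real.cos s := Real.cos_pos_of_mem_Ioo (abs_lt.1 hs)
  have hcφ : 0 < Real.cos φ := Real.cos_pos_of_mem_Ioo (abs_lt.1 hφ)
  have q1 := Real.sin_sq_add_cos_sq s
  have q2 := Real.sin_sq_add_cos_sq φ
  have hlt : Real.cos s < 2 * Real.cos φ := by
    by_contra hh
    push Not at hh
    have := pow_le_pow_left₀ (by linarith : 0 ≤ 2 * Real.cos φ) hh 2
    rw [h] at q1
    nlinarith
  -- complex identity
  have c1 := cos_e φ
  have c2 := cos_e s
  have s1 := sin_e φ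
  have s2 := sin_e s
  have a1 := e_neg_mul φ
  have a2 := e_neg_mul s
  have hC : Complex.sin s = 2 * Complex.sin φ := by
    rw [← Complex.ofReal_sin, ← Complex.ofReal_sin, h]; push_cast; rfl
  have hB : e s - e (-s) = 2 * (e φ - e (-φ)) := by
    rw [← s1, ← s2, hC]; ring
  refine ⟨0, 1, (r, φ), (-(r / 2 - s + φ), -s), 2 * Real.cos φ - Real.cos s, rfl, rfl, hφ,
    by simpa using hs, by linarith, ?_, ?_, ?_⟩
  · rw [st0, st1]
    show e (-(-(r / 2 - s + φ))) = 2 * e (r / 2) + _ * (-(e (r / 2)) * e φ)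
    rw [neg_neg, e_add, e_sub]
    push_cast
    rw [c1, c2]
    linear_combination (-(e (r / 2)) * e φ / 2) * hB + (2 * e (r / 2)) * a1
  · intro t ht1 ht2
    rw [st0, mem_interior_Q]
    have e1 : 2 * e (r / 2) + (t : ℂ) * (-(e (r / 2)) * e φ)
        = e (r / 2) * e φ * (((2 * Real.cos φ - t : ℝ) : ℂ) + ((-(2 * Real.sin φ) : ℝ) : ℂ) * I) := by
      push_cast
      rw [c1]
      linear_combination (-2 * e (r / 2)) * a1 + (e (r / 2) * e φ) * s1
    show 1 < ‖2 * e (r / 2) + (t : ℂ) * (-(e (r / 2)) * e φ)‖ ∧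
      ‖2 * e (r / 2) + (t : ℂ) * (-(e (r / 2)) * e φ)‖ < 2
    rw [e1, norm_mul, norm_mul, norm_e', norm_e', one_mul, one_mul]
    have k1 : Real.cos s < 2 * Real.cos φ - t := by linarith
    have k2 : 2 * Real.cos φ - t < 2 * Real.cos φ := by linarith
    constructor
    · apply one_lt_norm
      rw [norm_sq_aux]
      have : Real.cos s ^ 2 < (2 * Real.cos φ - t) ^ 2 := by
        apply pow_lt_pow_left₀ k1 hcs.le (by norm_num)
      rw [h] at q1
      nlinarith
    · apply norm_lt_two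
      rw [norm_sq_aux]
      have : (2 * Real.cos φ - t) ^ 2 < (2 * Real.cos φ) ^ 2 := by
        apply pow_lt_pow_left₀ k2 (by linarith) (by norm_num)
      nlinarith
  · rw [st0, st1]
    show e (-(-(r / 2 - s + φ))) * e (-s) =
      (deriv (γ 1) (-(r / 2 - s + φ))) ^ 2 * (starRingEnd ℂ) (-(e (r / 2)) * e φ)
    rw [dg1, neg_neg, map_mul, map_neg, conj_e, conj_e, e_add, e_sub]
    have a3 := e_neg_mul (r / 2)
    have : I * I = -1 := I_mul_I
    linear_combination (e (r / 2) ^ 2 * e (-s) ^ 2 * e φ ^ 2 * e (-(r / 2)) * e (-φ)) * this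
      - (e (r / 2) * e (-s) ^ 2 * e φ ^ 2 * e (-φ)) * a3 - (e (r / 2) * e (-s) ^ 2 * e φ) * a1

/-- from the inner circle to the outer one -/
lemma inner_outer (r ψ f : ℝ) (h : Real.sin ψ = 2 * Real.sin f) (hψ : |ψ| < Real.pi / 2)
    (hf : |f| < Real.pi / 2) :
    Next Q γ (state γ 1 (r, ψ)) (state γ 0 (2 * (-r + ψ - f), -f)) := by
  have hcψ : 0 < Real.cos ψ := Real.cos_pos_of_mem_Ioo (abs_lt.1 hψ)
  have hcf : 0 < Real.cos f := Real.cos_pos_of_mem_Ioo (abs_lt.1 hf)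
  have q1 := Real.sin_sq_add_cos_sq ψ
  have q2 := Real.sin_sq_add_cos_sq f
  have hlt : Real.cos ψ < 2 * Real.cos f := by
    by_contra hh
    push Not at hh
    have := pow_le_pow_left₀ (by linarith : 0 ≤ 2 * Real.cos f) hh 2
    rw [h] at q1
    nlinarith
  have c1 := cos_e f
  have c2 := cos_e ψ
  have s1 := sin_e f
  have s2 := sin_e ψ
  have a1 := e_neg_mul f
  have a2 := e_neg_mul ψ
  have hC : Complex.sin ψ = 2 * Complex.sin f := by
    rw [← Complex.ofReal_sin, ← Complex.ofReal_sin, h]; push_cast; rfl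
  have hB : e ψ - e (-ψ) = 2 * (e f - e (-f)) := by
    rw [← s1, ← s2, hC]; ring
  have hhalf : 2 * (-r + ψ - f) / 2 = -r + ψ - f := by ring
  refine ⟨1, 0, (r, ψ), (2 * (-r + ψ - f), -f), 2 * Real.cos f - Real.cos ψ, rfl, rfl, hψ,
    by simpa using hf, by linarith, ?_, ?_, ?_⟩
  · rw [st0, st1]
    show 2 * e (2 * (-r + ψ - f) / 2) = e (-r) + _ * (e (-r) * e ψ)
    rw [hhalf, e_sub, e_add]
    push_cast
    rw [c1, c2]
    linear_combination (e (-r) * e ψ / 2) * hB + (e (-r)) * a2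
  · intro t ht1 ht2
    rw [st1, mem_interior_Q]
    have e1 : e (-r) + (t : ℂ) * (e (-r) * e ψ)
        = e (-r) * e ψ * (((Real.cos ψ + t : ℝ) : ℂ) + ((-(Real.sin ψ) : ℝ) : ℂ) * I) := by
      push_cast
      rw [c2]
      linear_combination (-(e (-r))) * a2 + (e (-r) * e ψ / 2) * s2
    show 1 < ‖e (-r) + (t : ℂ) * (e (-r) * e ψ)‖ ∧ ‖e (-r) + (t : ℂ) * (e (-r) * e ψ)‖ < 2
    rw [e1, norm_mul, norm_mul, norm_e', norm_e', one_mul, one_mul]
    have k1 : Real.cos ψ < Real.cos ψ + t := by linarith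
    have k2 : Real.cos ψ + t < 2 * Real.cos f := by linarith
    constructor
    · apply one_lt_norm
      rw [norm_sq_aux]
      have : Real.cos ψ ^ 2 < (Real.cos ψ + t) ^ 2 := by
        apply pow_lt_pow_left₀ k1 hcψ.le (by norm_num)
      nlinarith
    · apply norm_lt_two
      rw [norm_sq_aux]
      have : (Real.cos ψ + t) ^ 2 < (2 * Real.cos f) ^ 2 := by
        apply pow_lt_pow_left₀ k2 (by linarith) (by norm_num)
      rw [h]
      nlinarith
  · rw [st0, st1]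
    show -(e (2 * (-r + ψ - f) / 2)) * e (-f) =
      (deriv (γ 0) (2 * (-r + ψ - f))) ^ 2 * (starRingEnd ℂ) (e (-r) * e ψ)
    rw [dg0, hhalf, map_mul, conj_e, conj_e, neg_neg, e_sub, e_add]
    have a3 := e_neg_mul r
    have : I * I = -1 := I_mul_I
    linear_combination (-(e (-r) ^ 2 * e ψ ^ 2 * e (-f) ^ 2 * e r * e (-ψ))) * this
      + (e (-r) * e ψ ^ 2 * e (-f) ^ 2 * e (-ψ)) * a3 + (e (-r) * e ψ * e (-f) ^ 2) * a2

/-- the next collision is unique -/
lemma next_unique {x y y' : ℂ × ℂ} (h : Next Q γ x y) (h' : Next Q γ x y') : y = y' := by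
  obtain ⟨i, j, p, q, τ, hx, hy, h1, h2, h3, h4, h5, h6⟩ := h
  obtain ⟨i', j', p', q', τ', hx', hy', h1', h2', h3', h4', h5', h6'⟩ := h'
  have hfr : ∀ (j : Fin 2) (q : ℝ × ℝ), (state γ j q).1 ∉ interior Q := by
    intro j q hq
    have h7 : (state γ j q).1 ∈ frontier Q := by
      rw [frontier_Q]
      exact Set.mem_iUnion.2 ⟨j, q.1, rfl⟩
    exact h7.2 hq
  have hτ : τ = τ' := by
    rcases lt_trichotomy τ τ' with hlt | heq | hgt
    · exfalso
      have := h5' τ h3 hlt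
      rw [← h4, hy] at this
      exact hfr _ _ this
    · exact heq
    · exfalso
      have := h5 τ' h3' hgt
      rw [← h4', hy'] at this
      exact hfr _ _ this
  have h11 : y.1 = y'.1 := by rw [h4, h4', hτ]
  have hd : ∀ (j : Fin 2) (r : ℝ), (deriv (γ j) r) ^ 2 = -(γ j r / ‖γ j r‖) ^ 2 := by
    intro j r
    have : I ^ 2 = -1 := I_sq
    fin_cases j
    · show (deriv (γ 0) r) ^ 2 = -(γ 0 r / ‖γ 0 r‖) ^ 2
      rw [derivγ0, norm_γ0, γ0, mul_pow, this]
      push_cast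
      ring
    · show (deriv (γ 1) r) ^ 2 = -(γ 1 r / ‖γ 1 r‖) ^ 2
      rw [derivγ1, norm_γ1, γ1, mul_pow, neg_sq, this]
      push_cast
      ring
  have e1 : γ j q.1 = y.1 := by rw [hy]; rfl
  have e2 : γ j' q'.1 = y'.1 := by rw [hy']; rfl
  have h22 : y.2 = y'.2 := by
    rw [h6, h6', hd, hd, e1, e2, h11]
  exact Prod.ext h11 h22

lemma billiardMap_eq {x y : ℂ × ℂ} (h : Next Q γ x y) : billiardMap Q γ x = y :=
  next_unique (Classical.epsilon_spec (p := Next Q γ x) ⟨y, h⟩) h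

end Pool.Agent.R187.OB
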