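import Pool.Agent.R187.OB.Meas

/-!
# The logarithm of the norm of the derivative is not integrable
-/

set_option autoImplicit false

open MeasureTheory Filter Topology Complex

open scoped ENNReal

namespace Pool.Agent.R187.OB

/-- the angle function -/
noncomputable def S (φ : ℝ) : ℝ := Real.arcsin (2 * Real.sin φ)

lemma hasDerivAt_S (φ : ℝ) (h : |2 * Real.sin φ| < 1) :
    HasDerivAt S (2 * Real.cos φ / Real.sqrt (1 - (2 * Real.sin φ) ^ 2)) φ := by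
  have h1 := abs_lt.1 h
  have h2 := Real.hasDerivAt_arcsin (x := 2 * Real.sin φ) (by linarith [h1.1]) (by linarith [h1.2])
  have h3 : HasDerivAt (fun φ => 2 * Real.sin φ) (2 * Real.cos φ) φ :=
    (Real.hasDerivAt_sin φ).const_mul 2
  have h4 := HasDerivAt.comp (h := fun φ => 2 * Real.sin φ) (h₂ := Real.arcsin) φ h2 h3
  refine HasDerivAt.congr_deriv (f := S) h4 ?_
  ring

lemma S_spec (φ : ℝ) (h : |2 * Real.sin φ| < 1) : Real.sin (S φ) = 2 * Real.sin φ ∧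
    |S φ| < Real.pi / 2 := by
  have h1 := abs_lt.1 h
  refine ⟨Real.sin_arcsin h1.1.le h1.2.le, abs_lt.2 ⟨?_, ?_⟩⟩
  · exact Real.neg_pi_div_two_lt_arcsin.2 h1.1
  · exact Real.arcsin_lt_pi_div_two.2 h1.2

/-- lower bound for the norm of a map whose second component is `-(s • snd)` -/
lemma norm_lower (A : ℝ × ℝ →L[ℝ] ℝ) (s : ℝ) (hs : 0 ≤ s) :
    s ≤ ‖A.prod (-(s • ContinuousLinearMap.snd ℝ ℝ ℝ))‖ := by
  have h := (A.prod (-(s • ContinuousLinearMap.snd ℝ ℝ ℝ))).le_opNorm (0, 1)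
  have h1 : ‖((0:ℝ), (1:ℝ))‖ = 1 := by
    rw [Prod.norm_def]; simp
  rw [h1, mul_one] at h
  refine le_trans ?_ h
  rw [Prod.norm_def]
  refine le_trans ?_ (le_max_right _ _)
  simp [abs_of_nonneg hs]

/-- derivative of the maps in the coordinates -/
lemma hasFDerivAt_F (c : ℝ) (p : ℝ × ℝ) (h : |2 * Real.sin p.2| < 1) :
    ∃ A : ℝ × ℝ →L[ℝ] ℝ, HasFDerivAt (fun q : ℝ × ℝ => (-(q.1 / 2 - c * S q.2 + c * q.2), -(S q.2)))
      (A.prod (-((2 * Real.cos p.2 / Real.sqrt (1 - (2 * Real.sin p.2) ^ 2)) •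
        ContinuousLinearMap.snd ℝ ℝ ℝ))) p := by
  have hS := hasDerivAt_S p.2 h
  have h2 : HasFDerivAt (fun q : ℝ × ℝ => S q.2)
      ((2 * Real.cos p.2 / Real.sqrt (1 - (2 * Real.sin p.2) ^ 2)) •
        ContinuousLinearMap.snd ℝ ℝ ℝ) p :=
    HasDerivAt.comp_hasFDerivAt (h₂ := S) (f := fun q : ℝ × ℝ => q.2) p hS
      (hasFDerivAt_snd (𝕜 := ℝ) (p := p))
  have h3 : DifferentiableAt ℝ (fun q : ℝ × ℝ => -(q.1 / 2 - c * S q.2 + c * q.2)) p := by
    have := h2.differentiableAt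
    fun_prop
  exact ⟨_, h3.hasFDerivAt.prodMk h2.neg⟩

lemma good_nhds (p : ℝ × ℝ) (h : |2 * Real.sin p.2| < 1) (h2 : |p.2| < Real.pi / 2) :
    ∀ᶠ q : ℝ × ℝ in 𝓝 p, |2 * Real.sin q.2| < 1 ∧ |q.2| < Real.pi / 2 := by
  have c1 : Continuous fun q : ℝ × ℝ => |2 * Real.sin q.2| := by fun_prop
  have c2 : Continuous fun q : ℝ × ℝ => |q.2| := by fun_prop
  exact (c1.continuousAt.eventually_lt continuousAt_const h).and
    (c2.continuousAt.eventually_lt continuousAt_const h2)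

/-- the derivative of the map at the states of the outer circle is large -/
lemma exists_deriv (n : ℕ) (x : Cir) :
    (∃ D, IsDeriv Q γ (outer n x) D ∧ (2:ℝ) ^ (n + 2) ≤ Real.posLog ‖D‖) ∧
    (∃ D, IsDerivInv Q γ (outer n x) D ∧ (2:ℝ) ^ (n + 2) ≤ Real.posLog ‖D‖) := by
  obtain ⟨h1, h2, h3, h4, -, h6⟩ := param_spec n
  have hcψ : 0 < Real.cos (psi n) := Real.cos_pos_of_mem_Ioo ⟨by linarith [Real.pi_pos], h2⟩
  have hcf : 0 < Real.cos (fi n) := Real.cos_pos_of_mem_Ioo (abs_lt.1 h3)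
  have hq := Real.sin_sq_add_cos_sq (psi n)
  have hs0 : 0 < Real.sin (psi n) := Real.sin_pos_of_pos_of_lt_pi h1 (by linarith [Real.pi_pos])
  have hs1 : Real.sin (psi n) < 1 := by nlinarith
  induction x using QuotientAddGroup.induction_on with
  | H a =>
    set p : ℝ × ℝ := (2 * a, -(fi n)) with hp
    have hx : outer n (a : Cir) = state γ 0 p := outer_eq n a
    have hp2 : |2 * Real.sin p.2| < 1 := by
      show |2 * Real.sin (-(fi n))| < 1
      rw [Real.sin_neg, mul_neg, ← h4, abs_neg, abs_of_pos hs0]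
      exact hs1
    have hp3 : |p.2| < Real.pi / 2 := by
      show |-(fi n)| < Real.pi / 2
      rwa [abs_neg]
    have hval : 2 * Real.cos p.2 / Real.sqrt (1 - (2 * Real.sin p.2) ^ 2) =
        2 * Real.cos (fi n) / Real.cos (psi n) := by
      show 2 * Real.cos (-(fi n)) / Real.sqrt (1 - (2 * Real.sin (-(fi n))) ^ 2) = _
      rw [Real.cos_neg, Real.sin_neg, mul_neg, ← h4]
      have : 1 - (-Real.sin (psi n)) ^ 2 = Real.cos (psi n) ^ 2 := by nlinarith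
      rw [this, Real.sqrt_sq hcψ.le]
    have hnn : 0 ≤ 2 * Real.cos (fi n) / Real.cos (psi n) := by positivity
    have hpos : 0 < 2 * Real.cos (fi n) / Real.cos (psi n) := by positivity
    have hfinal : ∀ A : ℝ × ℝ →L[ℝ] ℝ, (2:ℝ) ^ (n + 2) ≤
        Real.posLog ‖A.prod (-((2 * Real.cos (fi n) / Real.cos (psi n)) •
        ContinuousLinearMap.snd ℝ ℝ ℝ))‖ := by
      intro A
      refine h6.trans ((Real.log_le_log hpos (norm_lower A _ hnn)).trans ?_)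
      exact le_max_right _ _
    show (∃ D, IsDeriv Q γ (outer n (a : Cir)) D ∧ _) ∧ (∃ D, IsDerivInv Q γ (outer n (a : Cir)) D ∧ _)
    constructor
    · obtain ⟨A, hA⟩ := hasFDerivAt_F 1 p hp2
      rw [hval] at hA
      refine ⟨_, ⟨0, 1, p, _, hx, ?_, hA⟩, hfinal A⟩
      filter_upwards [good_nhds p hp2 hp3] with q hq
      have h7 := outer_inner q.1 q.2 (S q.2) (S_spec q.2 hq.1).1 (S_spec q.2 hq.1).2 hq.2
      convert h7 using 3
      ring
    · obtain ⟨A, hA⟩ := hasFDerivAt_F (-1) p hp2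
      rw [hval] at hA
      refine ⟨_, ⟨0, 1, p, _, hx, ?_, hA⟩, hfinal A⟩
      filter_upwards [good_nhds p hp2 hp3] with q hq
      have h7 := inner_outer (-(q.1 / 2 - -1 * S q.2 + -1 * q.2)) (-(S q.2)) (-q.2)
        (by rw [Real.sin_neg, Real.sin_neg, (S_spec q.2 hq.1).1]; ring)
        (by rw [abs_neg]; exact (S_spec q.2 hq.1).2) (by rw [abs_neg]; exact hq.2)
      convert h7 using 2
      ext
      · show q.1 = _
        ring
      · show q.2 = _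
        ring

lemma not_logIntegrable (R : ℂ × ℂ → (ℝ × ℝ →L[ℝ] ℝ × ℝ) → Prop)
    (hR : ∀ n x, ∃ D, R (outer n x) D ∧ (2:ℝ) ^ (n + 2) ≤ Real.posLog ‖D‖) :
    ¬ LogIntegrable R mu := by
  rintro ⟨g, hg, hae⟩
  rw [ae_mu_iff] at hae
  have h1 : ∀ n, (1 : ℝ≥0∞) ≤ ∫⁻ x, ‖g x‖ₑ ∂(kap n) := by
    intro n
    have h2 : ∀ᵐ x ∂nu, ENNReal.ofReal ((2:ℝ) ^ (n + 2)) ≤ ‖g (outer n x)‖ₑ := by
      filter_upwards [(hae n).1] with x hx
      obtain ⟨D, hD, hM⟩ := hR n x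
      have h3 := hM.trans (hx D hD)
      rw [← ofReal_norm]
      apply ENNReal.ofReal_le_ofReal
      rw [Real.norm_eq_abs]
      exact h3.trans (le_abs_self _)
    unfold kap
    rw [lintegral_smul_measure, lintegral_add_measure, (emb_outer n).lintegral_map]
    have h3 : ENNReal.ofReal ((2:ℝ) ^ (n + 2)) ≤ ∫⁻ x, ‖g (outer n x)‖ₑ ∂nu := by
      calc ENNReal.ofReal ((2:ℝ) ^ (n + 2)) = ∫⁻ _ : Cir, ENNReal.ofReal ((2:ℝ) ^ (n + 2)) ∂nu := by
            rw [lintegral_const, measure_univ, mul_one]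
        _ ≤ _ := lintegral_mono_ae h2
    have h4 : (2⁻¹ : ℝ≥0∞) ^ (n + 2) * ENNReal.ofReal ((2:ℝ) ^ (n + 2)) = 1 := by
      rw [ENNReal.ofReal_pow (by norm_num), ← mul_pow]
      have : (2⁻¹ : ℝ≥0∞) * ENNReal.ofReal 2 = 1 := by
        rw [ENNReal.ofReal_ofNat]
        exact ENNReal.inv_mul_cancel (by norm_num) (by norm_num)
      rw [this, one_pow]
    calc (1 : ℝ≥0∞) = (2⁻¹ : ℝ≥0∞) ^ (n + 2) * ENNReal.ofReal ((2:ℝ) ^ (n + 2)) := h4.symm
      _ ≤ (2⁻¹ : ℝ≥0∞) ^ (n + 2) * (∫⁻ x, ‖g (outer n x)‖ₑ ∂nu +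
          ∫⁻ x, ‖g x‖ₑ ∂(nu.map (inner n))) := by
        gcongr
        exact h3.trans le_self_add
  have h5 : ∫⁻ x, ‖g x‖ₑ ∂mu = ⊤ := by
    unfold mu
    rw [lintegral_sum_measure]
    rw [eq_top_iff]
    calc (⊤ : ℝ≥0∞) = ∑' _ : ℕ, (1 : ℝ≥0∞) := (ENNReal.tsum_const_eq_top_of_ne_zero (by norm_num)).symm
      _ ≤ _ := ENNReal.tsum_le_tsum h1
  have h6 := hg.2
  rw [hasFiniteIntegral_def, h5] at h6
  exact lt_irrefl _ h6

theorem main : ∃ (m : ℕ) (Q : Set ℂ) (γ : Fin m → ℝ → ℂ) (L : Fin m → ℝ) (μ : Measure (ℂ × ℂ)),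
    IsTable Q γ L ∧ IsInvariantProbability Q γ μ ∧ IsNonPeriodic Q γ μ ∧
    ¬ LogIntegrable (IsDeriv Q γ) μ ∧ ¬ LogIntegrable (IsDerivInv Q γ) μ :=
  ⟨2, Q, γ, L, mu, isTable, invariant_mu, nonperiodic_mu,
    not_logIntegrable _ fun n x => (exists_deriv n x).1,
    not_logIntegrable _ fun n x => (exists_deriv n x).2⟩

end Pool.Agent.R187.OB
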