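import Pool.Agent.R187.OB.Dyn

/-!
# The invariant measure
-/

set_option autoImplicit false

open MeasureTheory Filter Topology Complex

open scoped ENNReal

namespace Pool.Agent.R187.OB

/-! ### angles -/

lemma exists_param (M : ℝ) (hM : 0 < M) : ∃ ψ f : ℝ, 0 < ψ ∧ ψ < Real.pi / 2 ∧ |f| < Real.pi / 2 ∧
    Real.sin ψ = 2 * Real.sin f ∧ Irrational ((ψ - f) / Real.pi) ∧
    M ≤ Real.log (2 * Real.cos f / Real.cos ψ) := by
  have hexp : Real.exp (-M) < 1 := by rw [Real.exp_lt_one_iff]; linarith
  have hexp0 := Real.exp_pos (-M)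
  set ψ0 := Real.arccos (Real.exp (-M)) with hψ0
  have h0 : 0 < ψ0 := by rw [hψ0]; exact Real.arccos_pos.2 hexp
  have h0' : ψ0 < Real.pi / 2 := by rw [hψ0]; exact Real.arccos_lt_pi_div_two.2 hexp0
  have hcos0 : Real.cos ψ0 = Real.exp (-M) := Real.cos_arccos (by linarith) hexp.le
  let D : ℝ → ℝ := fun ψ => ψ - Real.arcsin (Real.sin ψ / 2)
  have hD : Continuous D := by
    have : Continuous Real.arcsin := Real.continuous_arcsin
    fun_prop
  have hDe : D (Real.pi / 2) = Real.pi / 3 := by
    show Real.pi / 2 - Real.arcsin (Real.sin (Real.pi / 2) / 2) = Real.pi / 3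
    have h1 : Real.arcsin (Real.sin (Real.pi / 2) / 2) = Real.pi / 6 := by
      rw [Real.sin_pi_div_two, ← Real.sin_pi_div_six]
      exact Real.arcsin_sin (by linarith [Real.pi_pos]) (by linarith [Real.pi_pos])
    rw [h1]; ring
  have hDn : D ψ0 ≠ Real.pi / 3 := by
    intro h
    have h1 : Real.arcsin (Real.sin ψ0 / 2) = ψ0 - Real.pi / 3 := by
      have : ψ0 - Real.arcsin (Real.sin ψ0 / 2) = Real.pi / 3 := h
      linarith
    have h2 := congrArg Real.sin h1
    rw [Real.sin_arcsin (by linarith [Real.neg_one_le_sin ψ0]) (by linarith [Real.sin_le_one ψ0]),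
      Real.sin_sub, Real.cos_pi_div_three, Real.sin_pi_div_three] at h2
    have h3 : Real.cos ψ0 * (Real.sqrt 3 / 2) = 0 := by linarith
    have h4 : (0:ℝ) < Real.sqrt 3 / 2 := by positivity
    rw [hcos0] at h3
    have : 0 < Real.exp (-M) * (Real.sqrt 3 / 2) := by positivity
    linarith
  -- an irrational value in between
  obtain ⟨y, hy1, hy2, hy3⟩ : ∃ y : ℝ, Irrational (y / Real.pi) ∧ y ∈ Set.uIcc (D ψ0) (D (Real.pi / 2))
      ∧ y ≠ D ψ0 ∧ y ≠ D (Real.pi / 2) := by
    rw [hDe]
    rcases lt_or_gt_of_ne hDn with hlt | hlt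
    · obtain ⟨z, hz, hz1, hz2⟩ := exists_irrational_btwn (div_lt_div_of_pos_right hlt Real.pi_pos)
      refine ⟨z * Real.pi, by rwa [mul_div_assoc, div_self Real.pi_ne_zero, mul_one], ?_, ?_, ?_⟩
      · rw [Set.uIcc_of_le hlt.le]
        rw [div_lt_iff₀ Real.pi_pos] at hz1
        rw [lt_div_iff₀ Real.pi_pos] at hz2
        exact ⟨hz1.le, hz2.le⟩
      · rw [div_lt_iff₀ Real.pi_pos] at hz1
        exact hz1.ne'
      · rw [lt_div_iff₀ Real.pi_pos] at hz2
        exact hz2.ne
    · obtain ⟨z, hz, hz1, hz2⟩ := exists_irrational_btwn (div_lt_div_of_pos_right hlt Real.pi_pos)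
      refine ⟨z * Real.pi, by rwa [mul_div_assoc, div_self Real.pi_ne_zero, mul_one], ?_, ?_, ?_⟩
      · rw [Set.uIcc_of_ge hlt.le]
        rw [div_lt_iff₀ Real.pi_pos] at hz1
        rw [lt_div_iff₀ Real.pi_pos] at hz2
        exact ⟨hz1.le, hz2.le⟩
      · rw [lt_div_iff₀ Real.pi_pos] at hz2
        exact hz2.ne
      · rw [div_lt_iff₀ Real.pi_pos] at hz1
        exact hz1.ne'
  obtain ⟨ψ, hψ, hψy⟩ := intermediate_value_uIcc (hD.continuousOn (s := Set.uIcc ψ0 (Real.pi / 2))) hy2
  rw [Set.uIcc_of_le h0'.le] at hψ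
  have hψ1 : ψ ≠ ψ0 := by
    intro h; rw [h] at hψy; exact hy3.1 hψy.symm
  have hψ2 : ψ ≠ Real.pi / 2 := by
    intro h; rw [h] at hψy; exact hy3.2 hψy.symm
  have hψlt : ψ < Real.pi / 2 := lt_of_le_of_ne hψ.2 hψ2
  have hψpos : 0 < ψ := lt_of_lt_of_le h0 hψ.1
  have hs1 : 0 < Real.sin ψ := Real.sin_pos_of_pos_of_lt_pi hψpos (by linarith)
  have hs2 := Real.sin_le_one ψ
  have hsf : Real.sin (Real.arcsin (Real.sin ψ / 2)) = Real.sin ψ / 2 :=
    Real.sin_arcsin (by linarith) (by linarith)
  have hcψ : 0 < Real.cos ψ := Real.cos_pos_of_mem_Ioo ⟨by linarith [Real.pi_pos], hψlt⟩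
  refine ⟨ψ, Real.arcsin (Real.sin ψ / 2), hψpos, hψlt, ?_, by rw [hsf]; ring, ?_, ?_⟩
  · rw [abs_lt]
    exact ⟨Real.neg_pi_div_two_lt_arcsin.2 (by linarith), Real.arcsin_lt_pi_div_two.2 (by linarith)⟩
  · have : ψ - Real.arcsin (Real.sin ψ / 2) = y := hψy
    rw [this]
    exact hy1
  · have hcf : 0 ≤ Real.cos (Real.arcsin (Real.sin ψ / 2)) := Real.cos_arcsin_nonneg _
    have hq := Real.sin_sq_add_cos_sq (Real.arcsin (Real.sin ψ / 2))
    rw [hsf] at hq
    have h2c : 1 ≤ 2 * Real.cos (Real.arcsin (Real.sin ψ / 2)) := by nlinarith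
    have hle : Real.cos ψ ≤ Real.exp (-M) := by
      rw [← hcos0]
      exact Real.cos_le_cos_of_nonneg_of_le_pi h0.le (by linarith [Real.pi_pos]) hψ.1
    rw [Real.le_log_iff_exp_le (by positivity)]
    rw [le_div_iff₀ hcψ]
    have h5 : Real.exp M * Real.cos ψ ≤ Real.exp M * Real.exp (-M) :=
      mul_le_mul_of_nonneg_left hle (Real.exp_pos M).le
    rw [← Real.exp_add] at h5
    simp at h5
    linarith

/-- the angle at the inner circle -/
noncomputable def psi (n : ℕ) : ℝ := (exists_param ((2:ℝ) ^ (n + 2)) (by positivity)).choose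

/-- the angle at the outer circle -/
noncomputable def fi (n : ℕ) : ℝ :=
  (exists_param ((2:ℝ) ^ (n + 2)) (by positivity)).choose_spec.choose

lemma param_spec (n : ℕ) : 0 < psi n ∧ psi n < Real.pi / 2 ∧ |fi n| < Real.pi / 2 ∧
    Real.sin (psi n) = 2 * Real.sin (fi n) ∧ Irrational ((psi n - fi n) / Real.pi) ∧
    (2:ℝ) ^ (n + 2) ≤ Real.log (2 * Real.cos (fi n) / Real.cos (psi n)) :=
  (exists_param ((2:ℝ) ^ (n + 2)) (by positivity)).choose_spec.choose_spec

/-! ### families of states -/

/-- the circle of angles -/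
abbrev Cir : Type := AddCircle (2 * Real.pi)

instance : Fact (0 < 2 * Real.pi) := ⟨by positivity⟩

/-- states on the outer circle -/
noncomputable def outer (n : ℕ) (x : Cir) : ℂ × ℂ :=
  (2 * (AddCircle.toCircle x : ℂ), -(AddCircle.toCircle x : ℂ) * e (-(fi n)))

/-- states on the inner circle -/
noncomputable def inner (n : ℕ) (x : Cir) : ℂ × ℂ :=
  ((AddCircle.toCircle x : ℂ), (AddCircle.toCircle x : ℂ) * e (psi n))

/-- the rotation -/
noncomputable def rot (n : ℕ) : Cir := ((psi n - fi n : ℝ) : Cir)

lemma toCircle_eq (a : ℝ) : ((AddCircle.toCircle (a : Cir) : Circle) : ℂ) = e a := by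
  rw [AddCircle.toCircle_apply_mk, Circle.coe_exp]
  unfold e
  congr 2
  have : (2 * Real.pi / (2 * Real.pi) * a : ℝ) = a := by field_simp
  rw [this]

lemma outer_eq (n : ℕ) (a : ℝ) : outer n (a : Cir) = state γ 0 (2 * a, -(fi n)) := by
  rw [st0]
  unfold outer
  rw [toCircle_eq]
  have : 2 * a / 2 = a := by ring
  simp only [this]

lemma inner_eq (n : ℕ) (a : ℝ) : inner n (a : Cir) = state γ 1 (-a, psi n) := by
  rw [st1]
  unfold inner
  rw [toCircle_eq]
  simp only [neg_neg]

lemma continuous_outer (n : ℕ) : Continuous (outer n) := by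
  unfold outer
  have : Continuous fun x : Cir => ((AddCircle.toCircle x : Circle) : ℂ) :=
    continuous_subtype_val.comp AddCircle.continuous_toCircle
  fun_prop

lemma continuous_inner (n : ℕ) : Continuous (inner n) := by
  unfold inner
  have : Continuous fun x : Cir => ((AddCircle.toCircle x : Circle) : ℂ) :=
    continuous_subtype_val.comp AddCircle.continuous_toCircle
  fun_prop

lemma injective_outer (n : ℕ) : Function.Injective (outer n) := by
  intro x y h
  have h1 := congrArg Prod.fst h
  simp only [outer] at h1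
  have h2 : ((AddCircle.toCircle x : Circle) : ℂ) = ((AddCircle.toCircle y : Circle) : ℂ) :=
    mul_left_cancel₀ (by norm_num) h1
  exact AddCircle.injective_toCircle (by positivity) (Subtype.ext h2)

lemma injective_inner (n : ℕ) : Function.Injective (inner n) := by
  intro x y h
  have h1 := congrArg Prod.fst h
  simp only [inner] at h1
  exact AddCircle.injective_toCircle (by positivity) (Subtype.ext h1)

lemma emb_outer (n : ℕ) : MeasurableEmbedding (outer n) :=
  ((continuous_outer n).isClosedEmbedding (injective_outer n)).measurableEmbedding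

lemma emb_inner (n : ℕ) : MeasurableEmbedding (inner n) :=
  ((continuous_inner n).isClosedEmbedding (injective_inner n)).measurableEmbedding

lemma next_outer (n : ℕ) (x : Cir) : Next Q γ (outer n x) (inner n (x + rot n)) := by
  induction x using QuotientAddGroup.induction_on with
  | H a =>
    obtain ⟨h1, h2, h3, h4, -, -⟩ := param_spec n
    have h := outer_inner (2 * a) (-(fi n)) (-(psi n)) (by rw [Real.sin_neg, Real.sin_neg, h4]; ring)
      (by rw [abs_neg, abs_of_pos h1]; exact h2) (by rwa [abs_neg])
    have e1 : ((a : Cir) + rot n) = ((a + (psi n - fi n) : ℝ) : Cir) := by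
      unfold rot; rfl
    show Next Q γ (outer n (a : Cir)) (inner n ((a : Cir) + rot n))
    rw [e1, outer_eq, inner_eq]
    convert h using 3 <;> ring

lemma next_inner (n : ℕ) (x : Cir) : Next Q γ (inner n x) (outer n (x + rot n)) := by
  induction x using QuotientAddGroup.induction_on with
  | H a =>
    obtain ⟨h1, h2, h3, h4, -, -⟩ := param_spec n
    have h := inner_outer (-a) (psi n) (fi n) h4
      (by rw [abs_of_pos h1]; exact h2) h3
    have e1 : ((a : Cir) + rot n) = ((a + (psi n - fi n) : ℝ) : Cir) := by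
      unfold rot; rfl
    show Next Q γ (inner n (a : Cir)) (outer n ((a : Cir) + rot n))
    rw [e1, outer_eq, inner_eq]
    convert h using 3
    ring

lemma T_outer (n : ℕ) (x : Cir) : billiardMap Q γ (outer n x) = inner n (x + rot n) :=
  billiardMap_eq (next_outer n x)

lemma T_inner (n : ℕ) (x : Cir) : billiardMap Q γ (inner n x) = outer n (x + rot n) :=
  billiardMap_eq (next_inner n x)

/-! ### the measure -/

/-- normalised Haar measure of the circle -/
noncomputable abbrev nu : Measure Cir := AddCircle.haarAddCircle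

lemma map_rot (y : Cir) : nu.map (fun x => x + y) = nu :=
  (measurePreserving_add_right nu y).map_eq

lemma aem_outer (n : ℕ) : AEMeasurable (billiardMap Q γ) (nu.map (outer n)) := by
  rw [(emb_outer n).aemeasurable_map_iff]
  have : billiardMap Q γ ∘ outer n = fun x => inner n (x + rot n) := funext (T_outer n)
  rw [this]
  exact ((continuous_inner n).comp (continuous_add_const _)).measurable.aemeasurable

lemma aem_inner (n : ℕ) : AEMeasurable (billiardMap Q γ) (nu.map (inner n)) := by
  rw [(emb_inner n).aemeasurable_map_iff]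
  have : billiardMap Q γ ∘ inner n = fun x => outer n (x + rot n) := funext (T_inner n)
  rw [this]
  exact ((continuous_outer n).comp (continuous_add_const _)).measurable.aemeasurable

lemma map_outer (n : ℕ) : (nu.map (outer n)).map (billiardMap Q γ) = nu.map (inner n) := by
  rw [AEMeasurable.map_map_of_aemeasurable (aem_outer n) (continuous_outer n).aemeasurable]
  have : billiardMap Q γ ∘ outer n = inner n ∘ fun x => (x + rot n) := funext (T_outer n)
  rw [this, ← Measure.map_map (continuous_inner n).measurable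
    (continuous_add_const _).measurable, map_rot]

lemma map_inner (n : ℕ) : (nu.map (inner n)).map (billiardMap Q γ) = nu.map (outer n) := by
  rw [AEMeasurable.map_map_of_aemeasurable (aem_inner n) (continuous_inner n).aemeasurable]
  have : billiardMap Q γ ∘ inner n = outer n ∘ fun x => (x + rot n) := funext (T_inner n)
  rw [this, ← Measure.map_map (continuous_outer n).measurable
    (continuous_add_const _).measurable, map_rot]

/-- the invariant measure of the `n`-th family, of mass `2 ^ (-n-1)` -/
noncomputable def kap (n : ℕ) : Measure (ℂ × ℂ) :=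
  (2⁻¹ : ℝ≥0∞) ^ (n + 2) • (nu.map (outer n) + nu.map (inner n))

/-- the invariant measure -/
noncomputable def mu : Measure (ℂ × ℂ) := Measure.sum kap

lemma kap_univ (n : ℕ) : kap n Set.univ = (2⁻¹ : ℝ≥0∞) ^ (n + 1) := by
  unfold kap
  rw [Measure.smul_apply, Measure.add_apply,
    Measure.map_apply (continuous_outer n).measurable MeasurableSet.univ,
    Measure.map_apply (continuous_inner n).measurable MeasurableSet.univ]
  simp only [Set.preimage_univ, measure_univ, smul_eq_mul]
  rw [pow_succ, mul_assoc]
  have : (2⁻¹ : ℝ≥0∞) * (1 + 1) = 1 := by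
    rw [one_add_one_eq_two]
    exact ENNReal.inv_mul_cancel (by norm_num) (by norm_num)
  rw [this, mul_one]

lemma mu_prob : IsProbabilityMeasure mu := by
  constructor
  unfold mu
  rw [Measure.sum_apply _ MeasurableSet.univ]
  simp_rw [kap_univ, pow_succ]
  rw [ENNReal.tsum_mul_right, ENNReal.tsum_geometric, ENNReal.one_sub_inv_two, inv_inv]
  exact ENNReal.mul_inv_cancel (by norm_num) (by norm_num)

lemma aem_kap (n : ℕ) : AEMeasurable (billiardMap Q γ) (kap n) :=
  ((aem_outer n).add_measure (aem_inner n)).smul_measure _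

lemma map_kap (n : ℕ) : (kap n).map (billiardMap Q γ) = kap n := by
  unfold kap
  rw [Measure.map_smul, AEMeasurable.map_add₀ (aem_outer n) (aem_inner n), map_outer, map_inner,
    add_comm (nu.map (inner n))]

lemma aem_mu : AEMeasurable (billiardMap Q γ) mu := by
  unfold mu
  rw [aemeasurable_sum_measure_iff]
  exact aem_kap

lemma map_mu : mu.map (billiardMap Q γ) = mu := by
  have h := aem_mu
  unfold mu at h ⊢
  rw [Measure.map_sum h]
  congr 1
  funext n
  exact map_kap n

/-- properties that hold on all families hold almost everywhere -/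
lemma ae_mu_iff {p : ℂ × ℂ → Prop} : (∀ᵐ x ∂mu, p x) ↔
    ∀ n, (∀ᵐ x ∂nu, p (outer n x)) ∧ (∀ᵐ x ∂nu, p (inner n x)) := by
  unfold mu
  rw [Measure.ae_sum_iff]
  refine forall_congr' fun n => ?_
  unfold kap
  rw [Measure.ae_ennreal_smul_measure_iff (by simp), ae_add_measure_iff, (emb_outer n).ae_map_iff,
    (emb_inner n).ae_map_iff]

lemma regular_aux (n : ℕ) (x : Cir) : RegularOrbit Q γ (outer n x) ∧ RegularOrbit Q γ (inner n x) := by
  have hx : ∀ k : ℤ, x + (k + 1) • rot n = (x + k • rot n) + rot n := by
    intro k; rw [add_zsmul, one_zsmul, add_assoc]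
  constructor
  · refine ⟨fun k => if Even k then outer n (x + k • rot n) else inner n (x + k • rot n),
      by simp, fun k => ?_⟩
    by_cases hk : Even k
    · have h2 : ¬ Even (k + 1) := by rw [Int.even_add_one]; simpa using hk
      simp only [hk, h2, if_true, if_false]
      rw [hx]
      exact next_outer n _
    · have h2 : Even (k + 1) := by rw [Int.even_add_one]; exact hk
      simp only [hk, h2, if_true, if_false]
      rw [hx]
      exact next_inner n _
  · refine ⟨fun k => if Even k then inner n (x + k • rot n) else outer n (x + k • rot n),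
      by simp, fun k => ?_⟩
    by_cases hk : Even k
    · have h2 : ¬ Even (k + 1) := by rw [Int.even_add_one]; simpa using hk
      simp only [hk, h2, if_true, if_false]
      rw [hx]
      exact next_inner n _
    · have h2 : Even (k + 1) := by rw [Int.even_add_one]; exact hk
      simp only [hk, h2, if_true, if_false]
      rw [hx]
      exact next_outer n _

lemma invariant_mu : IsInvariantProbability Q γ mu where
  prob := mu_prob
  aemeasurable := aem_mu
  map_eq := map_mu
  regular := by
    rw [ae_mu_iff]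
    exact fun n => ⟨Eventually.of_forall fun x => (regular_aux n x).1,
      Eventually.of_forall fun x => (regular_aux n x).2⟩

/-! ### no periodic points -/

lemma iter (n : ℕ) (m : ℕ) (x : Cir) :
    (billiardMap Q γ)^[m] (outer n x) =
      (if Even m then outer n (x + m • rot n) else inner n (x + m • rot n)) ∧
    (billiardMap Q γ)^[m] (inner n x) =
      (if Even m then inner n (x + m • rot n) else outer n (x + m • rot n)) := by
  induction m generalizing x with
  | zero => simp
  | succ m ih =>
    rw [Function.iterate_succ_apply, Function.iterate_succ_apply, T_outer, T_inner]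
    have hx : x + (m + 1) • rot n = (x + rot n) + m • rot n := by
      rw [add_nsmul, one_nsmul]; abel
    rw [hx, (ih (x + rot n)).1, (ih (x + rot n)).2]
    by_cases hm : Even m
    · have h2 : ¬ Even (m + 1) := by rw [Nat.even_add_one]; simpa using hm
      simp [hm, h2]
    · have h2 : Even (m + 1) := by rw [Nat.even_add_one]; exact hm
      simp [hm, h2]

lemma rot_ne (n m : ℕ) (hm : 0 < m) : m • rot n ≠ 0 := by
  intro h
  obtain ⟨-, -, -, -, hirr, -⟩ := param_spec n
  have h1 : ((m • (psi n - fi n) : ℝ) : Cir) = 0 := by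
    rw [← h]; unfold rot; rfl
  rw [AddCircle.coe_eq_zero_iff] at h1
  obtain ⟨k, hk⟩ := h1
  apply hirr
  refine ⟨(2 * k : ℚ) / m, ?_⟩
  have hm' : (m : ℝ) ≠ 0 := by positivity
  push_cast
  rw [div_eq_div_iff hm' Real.pi_ne_zero]
  simp only [zsmul_eq_mul, nsmul_eq_mul] at hk
  linarith

lemma norm_outer (n : ℕ) (x : Cir) : ‖(outer n x).1‖ = 2 := by
  unfold outer; simp

lemma norm_inner (n : ℕ) (x : Cir) : ‖(inner n x).1‖ = 1 := by
  unfold inner; simp

lemma nonperiodic_mu : IsNonPeriodic Q γ mu := by
  unfold IsNonPeriodic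
  rw [measure_eq_zero_iff_ae_notMem, ae_mu_iff]
  intro n
  constructor
  · refine Eventually.of_forall fun x => ?_
    rintro ⟨m, hm, h⟩
    rw [(iter n m x).1] at h
    by_cases he : Even m
    · rw [if_pos he] at h
      have := injective_outer n h
      exact rot_ne n m hm (by simpa using this)
    · rw [if_neg he] at h
      have := congrArg (fun z : ℂ × ℂ => ‖z.1‖) h
      simp only [norm_outer, norm_inner] at this
      norm_num at this
  · refine Eventually.of_forall fun x => ?_
    rintro ⟨m, hm, h⟩
    rw [(iter n m x).2] at h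
    by_cases he : Even m
    · rw [if_pos he] at h
      have := injective_inner n h
      exact rot_ne n m hm (by simpa using this)
    · rw [if_neg he] at h
      have := congrArg (fun z : ℂ × ℂ => ‖z.1‖) h
      simp only [norm_outer, norm_inner] at this
      norm_num at this

end Pool.Agent.R187.OB
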